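import Pool.Agent.W236.SC.QDefs

/-!
# Bricks under reflections (SCQ-BRICK)
-/

set_option autoImplicit false
set_option linter.unusedSectionVars false

namespace Pool.Agent.W312.SC

open Pool.Agent.W236.Qv

variable {S : Type*} [Fintype S] [DecidableEq S] (G : Gph S)

/-- the map `⊕_{t adj r} V_t → V_r` -/
noncomputable def Phi (r : S) (N : Rep S) :
    (∀ t, Fin (N.d t) → ℚ) →ₗ[ℚ] (Fin (N.d r) → ℚ) :=
  ∑ t, if G.adj r t then (N.f t r) ∘ₗ (LinearMap.proj t) else 0

lemma Phi_apply (r : S) (N : Rep S) (y : ∀ t, Fin (N.d t) → ℚ) :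
    Phi G r N y = ∑ t, if G.adj r t then N.f t r (y t) else 0 := by
  unfold Phi
  rw [LinearMap.sum_apply]
  refine Finset.sum_congr rfl fun t _ => ?_
  by_cases h : G.adj r t = true <;> simp [h]

lemma adj_ne {r t : S} (h : G.adj r t = true) : t ≠ r := by
  rintro rfl
  rw [G.irr] at h
  exact absurd h (by simp)

lemma exists_ne_zero_of_d {n : ℕ} (h : n ≠ 0) : ∃ x : Fin n → ℚ, x ≠ 0 := by
  refine ⟨fun _ => 1, fun hx => ?_⟩
  have := congrFun hx ⟨0, Nat.pos_of_ne_zero h⟩
  simp at this

lemma d_ne_zero_of_ne {n : ℕ} {x : Fin n → ℚ} (h : x ≠ 0) : n ≠ 0 := by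
  rintro rfl
  exact h (Subsingleton.elim _ _)

/-- a rank one idempotent endomorphism supported at `r` forces the brick to be simple at `r` -/
lemma simple_of_rank_one (p : S → ℕ) (r : S) (N : Rep S) (hB : Brick G p N)
    (l : (Fin (N.d r) → ℚ) →ₗ[ℚ] ℚ) (m : Fin (N.d r) → ℚ) (hlm : l m = 1)
    (hh : IsHom G p N N (Function.update (fun i => (0 : (Fin (N.d i) → ℚ) →ₗ[ℚ] (Fin (N.d i) → ℚ)))
      r (l.smulRight m))) : N.d = Pi.single r 1 := by
  obtain ⟨c, hc⟩ := hB.2 _ hh
  have hm : m ≠ 0 := by
    rintro rfl
    simp at hlm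
  have hr := hc r
  rw [Function.update_self] at hr
  have hcm : m = c • m := by
    have := congrArg (fun g => g m) hr
    simpa [hlm] using this
  have hc1 : c = 1 := by
    by_contra hne
    have : (c - 1) • m = 0 := by rw [sub_smul, one_smul, ← hcm, sub_self]
    rcases smul_eq_zero.mp this with h | h
    · exact hne (by linarith)
    · exact hm h
  have h1 : N.d r = 1 := by
    have := finrank_eq_one (R := ℚ) m hm (fun w => ⟨l w, by
      have := congrArg (fun g => g w) hr
      simpa [hc1] using this⟩)
    simpa using this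
  funext i
  by_cases hi : i = r
  · subst hi
    rw [h1, Pi.single_eq_same]
  · rw [Pi.single_eq_of_ne hi]
    have h2 := hc i
    rw [Function.update_of_ne hi, hc1, one_smul] at h2
    by_contra hne
    obtain ⟨x, hx⟩ := exists_ne_zero_of_d hne
    have := congrArg (fun g => g x) h2
    exact hx (by simpa using this.symm)

theorem brickSurj : S_BrickSurj G := by
  intro p r N hr hB hne
  by_contra hns
  apply hne
  have hlt : LinearMap.range (Phi G r N) < ⊤ := by
    rw [lt_top_iff_ne_top]
    intro htop
    apply hns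
    intro z
    have : z ∈ LinearMap.range (Phi G r N) := by rw [htop]; trivial
    obtain ⟨y, hy⟩ := this
    exact ⟨y, by rw [← Phi_apply, hy]⟩
  obtain ⟨l0, hl0, hk⟩ := Submodule.exists_le_ker_of_lt_top _ hlt
  obtain ⟨m0, hm0⟩ : ∃ m, l0 m ≠ 0 := by
    by_contra hcon
    push Not at hcon
    exact hl0 (LinearMap.ext fun x => by simpa using hcon x)
  have hkill : ∀ t, G.adj r t = true → ∀ x, l0 (N.f t r x) = 0 := by
    intro t ht x
    have h1 : Phi G r N (Function.update 0 t x) = N.f t r x := by
      rw [Phi_apply, Finset.sum_eq_single t]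
      · simp [ht]
      · intro b _ hb
        simp [Function.update_of_ne hb]
      · simp
    rw [← h1]
    exact hk ⟨_, rfl⟩
  refine simple_of_rank_one G p r N hB l0 ((l0 m0)⁻¹ • m0) (by simp [hm0]) ?_
  intro i j hij
  by_cases hi : i = r
  · subst hi
    exact absurd hij.2 (by have := hr j hij.1; omega)
  · rw [Function.update_of_ne hi]
    by_cases hj : j = r
    · subst hj
      rw [Function.update_self]
      refine LinearMap.ext fun x => ?_
      simp [hkill i (by rw [G.symm]; exact hij.1) x]
    · rw [Function.update_of_ne hj]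
      simp

theorem brickInj : S_BrickInj G := by
  intro p r N hr hB hne
  by_contra hns
  apply hne
  unfold InjAt at hns
  push Not at hns
  obtain ⟨x, hx, hx0⟩ := hns
  obtain ⟨l0, hl0⟩ : ∃ l0 : Module.Dual ℚ (Fin (N.d r) → ℚ), l0 x ≠ 0 := by
    by_contra hcon
    push Not at hcon
    exact hx0 ((Module.forall_dual_apply_eq_zero_iff ℚ x).mp hcon)
  refine simple_of_rank_one G p r N hB l0 ((l0 x)⁻¹ • x) (by simp [hl0]) ?_
  intro i j hij
  by_cases hj : j = r
  · subst hj
    exact absurd hij.2 (by have := hr i (by rw [G.symm]; exact hij.1); omega)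
  · rw [Function.update_of_ne hj]
    by_cases hi : i = r
    · subst hi
      rw [Function.update_self]
      refine LinearMap.ext fun z => ?_
      simp [hx j hij.1]
    · rw [Function.update_of_ne hi]
      simp

/-- pointwise form of the reflection data: inverse maps outside `r` -/
lemma exists_inv {p : S → ℕ} {r : S} {V V' : Rep S}
    {e : ∀ i, (Fin (V.d i) → ℚ) →ₗ[ℚ] (Fin (V'.d i) → ℚ)} (h : OutIso G p r V V' e) :
    ∃ k : ∀ i, (Fin (V'.d i) → ℚ) →ₗ[ℚ] (Fin (V.d i) → ℚ),
      (∀ i, i ≠ r → ∀ x, k i (e i x) = x) ∧ (∀ i, i ≠ r → ∀ x, e i (k i x) = x) := by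
  classical
  refine ⟨fun i => if hi : i ≠ r then
    ((LinearEquiv.ofBijective (e i) (h.bij i hi)).symm : _ →ₗ[ℚ] _) else 0, ?_, ?_⟩
  · intro i hi x
    simp only [hi, ne_eq, not_false_eq_true, dif_pos]
    exact (LinearEquiv.ofBijective (e i) (h.bij i hi)).symm_apply_apply x
  · intro i hi x
    simp only [hi, ne_eq, not_false_eq_true, dif_pos]
    exact (LinearEquiv.ofBijective (e i) (h.bij i hi)).apply_symm_apply x

lemma Phi_zero_iff {p : S → ℕ} {r : S} {V V' : Rep S}
    {e : ∀ i, (Fin (V.d i) → ℚ) →ₗ[ℚ] (Fin (V'.d i) → ℚ)} (h : IsCp G p r V V' e)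
    (y : ∀ t, Fin (V.d t) → ℚ) : Phi G r V y = 0 ↔
      ∃ x : Fin (V'.d r) → ℚ, ∀ t, G.adj r t = true → V'.f r t x = e t (y t) := by
  rw [Phi_apply]
  exact h.ex y

lemma Phi_congr {r : S} {V : Rep S} {y y' : ∀ t, Fin (V.d t) → ℚ}
    (h : ∀ t, G.adj r t = true → y t = y' t) : Phi G r V y = Phi G r V y' := by
  rw [Phi_apply, Phi_apply]
  refine Finset.sum_congr rfl fun t _ => ?_
  by_cases ht : G.adj r t = true
  · rw [if_pos ht, if_pos ht, h t ht]
  · rw [if_neg ht, if_neg ht]

lemma Phi_single {r t : S} (ht : G.adj r t = true) {V : Rep S} (x : Fin (V.d t) → ℚ) :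
    Phi G r V (Function.update 0 t x) = V.f t r x := by
  rw [Phi_apply, Finset.sum_eq_single t]
  · simp [ht]
  · intro b _ hb
    simp [Function.update_of_ne hb]
  · simp

theorem brickCp : S_BrickCp G := by
  classical
  intro p p' r N N' e hrot hcp hsurj
  obtain ⟨k, hk1, hk2⟩ := exists_inv G hcp.out
  have hPs : ∀ z, ∃ y, Phi G r N y = z := by
    intro z
    obtain ⟨y, hy⟩ := hsurj z
    exact ⟨y, by rw [Phi_apply, hy]⟩
  -- arrows
  have har : ∀ t, G.adj r t = true → G.arr p t r := fun t ht =>
    ⟨by rw [G.symm]; exact ht, (hrot.2 t ht).1⟩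
  have har' : ∀ t, G.adj r t = true → G.arr p' r t := fun t ht =>
    ⟨ht, by rw [hrot.1 t (adj_ne G ht)]; exact (hrot.2 t ht).2⟩
  have hno : ∀ j, ¬ G.arr p r j := fun j hj => by
    have := (hrot.2 j hj.1).1
    have h2 := hj.2
    omega
  have hno' : ∀ j, ¬ G.arr p' j r := fun j hj => by
    have ha : G.adj r j = true := by rw [G.symm]; exact hj.1
    have := (hrot.2 j ha).2
    have h2 := hj.2
    rw [hrot.1 j (adj_ne G ha)] at h2
    omega
  have harr : ∀ i j, i ≠ r → j ≠ r → (G.arr p' i j ↔ G.arr p i j) := fun i j hi hj => by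
    unfold Gph.arr
    rw [hrot.1 i hi, hrot.1 j hj]
  constructor
  · intro hB
    refine ⟨?_, ?_⟩
    · -- nonzero
      obtain ⟨i, hi⟩ := hB.1
      obtain ⟨j, hjr, hj⟩ : ∃ j, j ≠ r ∧ N.d j ≠ 0 := by
        by_cases hir : i = r
        · subst hir
          obtain ⟨z, hz⟩ := exists_ne_zero_of_d hi
          obtain ⟨y, hy⟩ := hPs z
          by_contra hcon
          push Not at hcon
          apply hz
          rw [← hy, Phi_apply]
          refine Finset.sum_eq_zero fun t _ => ?_
          by_cases ht : G.adj i t = true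
          · rw [if_pos ht]
            have h0 := hcon t (adj_ne G ht)
            have : y t = 0 := by
              by_contra h
              exact d_ne_zero_of_ne h h0
            rw [this, map_zero]
          · rw [if_neg ht]
        · exact ⟨i, hir, hi⟩
      obtain ⟨x, hx⟩ := exists_ne_zero_of_d hj
      refine ⟨j, d_ne_zero_of_ne (x := e j x) fun h => hx ?_⟩
      rw [← hk1 j hjr x, h, map_zero]
    · intro φ' hφ'
      -- the endomorphism outside r
      let ψ : ∀ i, (Fin (N.d i) → ℚ) →ₗ[ℚ] (Fin (N.d i) → ℚ) := fun i => k i ∘ₗ φ' i ∘ₗ e i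
      have hψ : ∀ i, i ≠ r → ∀ x, e i (ψ i x) = φ' i (e i x) := fun i hi x => hk2 i hi _
      let ψs : (∀ t, Fin (N.d t) → ℚ) →ₗ[ℚ] (∀ t, Fin (N.d t) → ℚ) :=
        LinearMap.pi fun t => ψ t ∘ₗ LinearMap.proj t
      have hψs : ∀ y t, ψs y t = ψ t (y t) := fun y t => rfl
      have hker : ∀ y, Phi G r N y = 0 → Phi G r N (ψs y) = 0 := by
        intro y hy
        obtain ⟨x, hx⟩ := (Phi_zero_iff G hcp y).mp hy
        refine (Phi_zero_iff G hcp _).mpr ⟨φ' r x, fun t ht => ?_⟩
        have h1 := congrArg (fun g => g x) (hφ' r t (har' t ht))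
        simp only [LinearMap.comp_apply] at h1
        rw [h1, hx t ht, hψs, hψ t (adj_ne G ht)]
      obtain ⟨s, hs⟩ := LinearMap.exists_rightInverse_of_surjective (Phi G r N)
        (LinearMap.range_eq_top.mpr hPs)
      have hs' : ∀ z, Phi G r N (s z) = z := fun z => congrArg (fun g => g z) hs
      let ψr : (Fin (N.d r) → ℚ) →ₗ[ℚ] (Fin (N.d r) → ℚ) := Phi G r N ∘ₗ ψs ∘ₗ s
      have hψr : ∀ y, ψr (Phi G r N y) = Phi G r N (ψs y) := by
        intro y
        have h0 : Phi G r N (s (Phi G r N y) - y) = 0 := by
          rw [map_sub, hs', sub_self]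
        have h1 := hker _ h0
        rw [map_sub, map_sub, sub_eq_zero] at h1
        exact h1
      obtain ⟨c, hc⟩ := hB.2 (Function.update ψ r ψr) (by
        intro i j hij
        by_cases hi : i = r
        · subst hi
          exact absurd hij (hno j)
        · by_cases hj : j = r
          · subst hj
            have ha : G.adj j i = true := by rw [G.symm]; exact hij.1
            rw [Function.update_self, Function.update_of_ne hi]
            refine LinearMap.ext fun x => ?_
            simp only [LinearMap.comp_apply]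
            rw [← Phi_single G ha x, hψr]
            rw [← Phi_single G ha (ψ i x)]
            refine Phi_congr G fun t _ => ?_
            rw [hψs]
            by_cases hti : t = i
            · subst hti
              simp
            · rw [Function.update_of_ne hti, Function.update_of_ne hti]
              simp
          · rw [Function.update_of_ne hi, Function.update_of_ne hj]
            refine LinearMap.ext fun x => ?_
            simp only [LinearMap.comp_apply]
            apply (hcp.out.bij j hj).1
            have h1 := congrArg (fun g => g (ψ i x)) (hcp.out.com i j hi hj hij)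
            have h2 := congrArg (fun g => g (e i x)) (hφ' i j ((harr i j hi hj).mpr hij))
            have h3 := congrArg (fun g => g x) (hcp.out.com i j hi hj hij)
            simp only [LinearMap.comp_apply] at h1 h2 h3
            rw [← h1, hψ i hi, h2, h3, hψ j hj])
      have hout : ∀ i, i ≠ r → ∀ x, φ' i x = c • x := by
        intro i hi x
        have h1 := congrArg (fun g => g (k i x)) (hc i)
        simp only [Function.update_of_ne hi] at h1
        have h2 := congrArg (e i) h1
        rw [hψ i hi, hk2 i hi] at h2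
        rw [h2]
        simp [hk2 i hi]
      refine ⟨c, fun i => LinearMap.ext fun x => ?_⟩
      by_cases hi : i = r
      · subst hi
        have : φ' i x - c • x = 0 := by
          apply hcp.inj
          intro t ht
          have h1 := congrArg (fun g => g x) (hφ' i t (har' t ht))
          simp only [LinearMap.comp_apply] at h1
          rw [map_sub, h1, hout t (adj_ne G ht), map_smul, sub_self]
        rw [sub_eq_zero.mp this]
        simp
      · rw [hout i hi x]
        simp
  · intro hB
    refine ⟨?_, ?_⟩
    · obtain ⟨i, hi⟩ := hB.1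
      obtain ⟨j, hjr, hj⟩ : ∃ j, j ≠ r ∧ N'.d j ≠ 0 := by
        by_cases hir : i = r
        · subst hir
          obtain ⟨z, hz⟩ := exists_ne_zero_of_d hi
          by_contra hcon
          push Not at hcon
          apply hz
          apply hcp.inj
          intro t ht
          by_contra h
          exact d_ne_zero_of_ne h (hcon t (adj_ne G ht))
        · exact ⟨i, hir, hi⟩
      obtain ⟨x, hx⟩ := exists_ne_zero_of_d hj
      refine ⟨j, d_ne_zero_of_ne (x := k j x) fun h => hx ?_⟩
      rw [← hk2 j hjr x, h, map_zero]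
    · intro φ hφ
      let ψ : ∀ i, (Fin (N'.d i) → ℚ) →ₗ[ℚ] (Fin (N'.d i) → ℚ) := fun i => e i ∘ₗ φ i ∘ₗ k i
      let φs : (∀ t, Fin (N.d t) → ℚ) → (∀ t, Fin (N.d t) → ℚ) := fun y t => φ t (y t)
      have hφr : ∀ y, Phi G r N (φs y) = φ r (Phi G r N y) := by
        intro y
        rw [Phi_apply, Phi_apply, map_sum]
        refine Finset.sum_congr rfl fun t _ => ?_
        by_cases ht : G.adj r t = true
        · rw [if_pos ht, if_pos ht]
          have h1 := congrArg (fun g => g (y t)) (hφ t r (har t ht))
          simpa only [LinearMap.comp_apply] using h1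
        · rw [if_neg ht, if_neg ht, map_zero]
      let J : (Fin (N'.d r) → ℚ) →ₗ[ℚ] (∀ t, Fin (N'.d t) → ℚ) :=
        LinearMap.pi fun t => if G.adj r t then N'.f r t else 0
      have hJ : ∀ x t, G.adj r t = true → J x t = N'.f r t x := by
        intro x t ht
        simp only [J, LinearMap.pi_apply, if_pos ht]
      have hJ0 : ∀ x t, ¬ G.adj r t = true → J x t = 0 := by
        intro x t ht
        simp only [J, LinearMap.pi_apply, if_neg ht, LinearMap.zero_apply]
      have hJinj : LinearMap.ker J = ⊥ := by
        rw [LinearMap.ker_eq_bot']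
        intro x hx
        apply hcp.inj
        intro t ht
        rw [← hJ x t ht, hx]
        rfl
      let K : (Fin (N'.d r) → ℚ) →ₗ[ℚ] (∀ t, Fin (N'.d t) → ℚ) :=
        LinearMap.pi fun t => ψ t ∘ₗ LinearMap.proj t ∘ₗ J
      have hK : ∀ x t, K x t = ψ t (J x t) := fun x t => rfl
      obtain ⟨g, hg⟩ := LinearMap.exists_leftInverse_of_injective J hJinj
      have hg' : ∀ x, g (J x) = x := fun x => congrArg (fun h => h x) hg
      have hKJ : ∀ x, ∃ z, K x = J z := by
        intro x
        have h0 : Phi G r N (fun t => k t (J x t)) = 0 := by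
          refine (Phi_zero_iff G hcp _).mpr ⟨x, fun t ht => ?_⟩
          rw [hk2 t (adj_ne G ht), hJ x t ht]
        have h1 : Phi G r N (φs fun t => k t (J x t)) = 0 := by
          rw [hφr, h0, map_zero]
        obtain ⟨z, hz⟩ := (Phi_zero_iff G hcp _).mp h1
        refine ⟨z, funext fun t => ?_⟩
        by_cases ht : G.adj r t = true
        · rw [hK, hJ z t ht, hz t ht]
          rfl
        · rw [hK, hJ0 z t ht, hJ0 x t ht, map_zero]
      let ψr : (Fin (N'.d r) → ℚ) →ₗ[ℚ] (Fin (N'.d r) → ℚ) := g ∘ₗ K
      have hψr : ∀ x, J (ψr x) = K x := by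
        intro x
        obtain ⟨z, hz⟩ := hKJ x
        simp only [ψr, LinearMap.comp_apply]
        rw [hz, hg']
      obtain ⟨c, hc⟩ := hB.2 (Function.update ψ r ψr) (by
        intro i j hij
        by_cases hj : j = r
        · subst hj
          exact absurd hij (hno' i)
        · by_cases hi : i = r
          · subst hi
            rw [Function.update_self, Function.update_of_ne hj]
            refine LinearMap.ext fun x => ?_
            simp only [LinearMap.comp_apply]
            rw [← hJ (ψr x) j hij.1, hψr, hK, hJ x j hij.1]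
          · rw [Function.update_of_ne hi, Function.update_of_ne hj]
            refine LinearMap.ext fun x => ?_
            have hij' := (harr i j hi hj).mp hij
            have h1 := congrArg (fun g => g (φ i (k i x))) (hcp.out.com i j hi hj hij')
            have h2 := congrArg (fun g => g (k i x)) (hφ i j hij')
            have h3 := congrArg (fun g => g (k i x)) (hcp.out.com i j hi hj hij')
            simp only [LinearMap.comp_apply] at h1 h2 h3
            show N'.f i j (e i (φ i (k i x))) = e j (φ j (k j (N'.f i j x)))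
            rw [h1, h2]
            congr 2
            rw [hk2 i hi] at h3
            rw [h3, hk1 j hj])
      have hout : ∀ i, i ≠ r → ∀ x, φ i x = c • x := by
        intro i hi x
        have h1 := congrArg (fun g => g (e i x)) (hc i)
        simp only [Function.update_of_ne hi] at h1
        have h2 : e i (φ i (k i (e i x))) = c • e i x := h1
        rw [hk1 i hi, ← map_smul] at h2
        exact (hcp.out.bij i hi).1 h2
      refine ⟨c, fun i => LinearMap.ext fun x => ?_⟩
      by_cases hi : i = r
      · subst hi
        obtain ⟨y, rfl⟩ := hPs x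
        rw [← hφr]
        have h1 : Phi G i N (φs y) = Phi G i N (c • y) :=
          Phi_congr G fun t ht => hout t (adj_ne G ht) (y t)
        rw [h1, map_smul]
        simp
      · rw [hout i hi x]
        simp

end Pool.Agent.W312.SC
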